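import Pool.Agent.Lib.MP_6b2d39_agTen.Fill2

/-!
Exact filling of a Young diagram with `H` columns of lengths `q + [a < x] + [a < y]`.

PROOF of `fillable_two`. `A = H` (`d1` is empty), `T = x + y + w`. If `x + w ≤ H`: `dem a = q + [a < x + w] + [a < y]`, if
`T ≤ 2 H`: `dem a = q + 1 + [a < T - H]`, otherwise `dem a = q + 2 + [a < T - 2 H]`. `Lam b dem ≤ 2 b` for `b < M`: `lam_ind` for one
indicator, and the indicator of `[a < v]` contributes `0` if `b + 2 ≤ v` (`Lam_add`, `Lam_congr`): for `y = 0` there is one indicator,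
for `y ≥ 1` we have `x + w ≥ M + 1 ≥ b + 2`.
PROOF of `emp_block`. `EmpP.of_swap`: the image of `dgm r (q + 2)` under `Prod.swap` is `dgm (fun a => q + [a < x] + [a < y]) H`
(compare `emp_exc`); `emp_of_fillable`.
-/

set_option autoImplicit false

namespace Pool.Agent.Lib.MP_6b2d39_agTen

open Pool.Agent.Lib.MP_6b2d39_ag Pool.Agent.Lib.MP_6b2d39_agArr Pool.Agent.Lib.MP_6b2d39_agWin
  Pool.Agent.Lib.MP_6b2d39_agNw Pool.Agent.Lib.MP_6b2d39_agNf

/-- rows: `q` rows of length `H`, then `x`, then `y` -/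
def blk (H q x y : ℕ) (b : ℕ) : ℕ := if b < q then H else if b = q then x else y

theorem emp_block {ι : Type} [Fintype ι] [DecidableEq ι] {m : ι → ℕ} {J : Finset ι}
    {M H q x y : ℕ} (hM : 1 ≤ M) (hH : 2 * M + 1 ≤ H) (hq : 9 * M ^ 2 + 2 * M ≤ q)
    (hyx : y ≤ x) (hxH : x ≤ H) (h : y = 0 ∨ M + 1 ≤ x) (hm : ∀ j ∈ J, m j ≤ M)
    (hmass : H * q + x + y ≤ mass m J) : EmpP (dgm (blk H q x y) (q + 2)) m J := by
  obtain ⟨c, hc⟩ : ∃ c : ℕ → ℕ,
      c = fun a => q + (if a < x then 1 else 0) + if a < y then 1 else 0 := ⟨_, rfl⟩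
  have himg : (dgm (blk H q x y) (q + 2)).image Prod.swap = dgm c H := by
    ext ⟨b, a⟩
    have key : (b < q + 2 ∧ a < blk H q x y b) ↔ (a < H ∧ b < c a) := by
      rw [hc]
      unfold blk
      dsimp only
      split_ifs <;> omega
    rw [Finset.mem_image, mem_dgm]
    constructor
    · rintro ⟨⟨a', b'⟩, h2, h3⟩
      rw [mem_dgm] at h2
      have e1 : b' = b := congrArg Prod.fst h3
      have e2 : a' = a := congrArg Prod.snd h3
      subst e1 e2
      exact key.1 h2
    · intro h2
      refine ⟨(a, b), ?_, rfl⟩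
      rw [mem_dgm]
      exact key.2 h2
  have hsum : ∑ b ∈ Finset.range (q + 2), blk H q x y b = H * q + x + y := by
    have e0 : ∑ b ∈ Finset.range q, blk H q x y b = H * q := by
      rw [Finset.sum_congr rfl (g := fun _ => H) fun b hb => ?_, Finset.sum_const,
        Finset.card_range, smul_eq_mul, Nat.mul_comm]
      unfold blk
      rw [if_pos (Finset.mem_range.1 hb)]
    have e1 : blk H q x y q = x := by
      unfold blk
      rw [if_neg (lt_irrefl q), if_pos rfl]
    have e2 : blk H q x y (q + 1) = y := by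
      unfold blk
      rw [if_neg (by omega), if_neg (by omega)]
    rw [Finset.sum_range_succ, Finset.sum_range_succ, e0, e1, e2]
  have hcard : ∑ a ∈ Finset.range H, c a = ∑ b ∈ Finset.range (q + 2), blk H q x y b := by
    rw [← card_dgm, ← card_dgm, ← himg, Finset.card_image_of_injective _ Prod.swap_injective]
  refine EmpP.of_swap ?_
  rw [himg]
  have hf : Fillable M H c := by
    rw [hc]
    exact fillable_two hM hH hq hyx hxH h
  exact emp_of_fillable hf hM hm (by rwa [hcard, hsum])

end Pool.Agent.Lib.MP_6b2d39_agTen
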