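import Pool.Agent.Lib.MP_6b2d39_agTen.DegA

/-!
Degree and expected dimension of reduced nine-point classes.

PROOFS. `deg_le`: `β = d - 3 a`, `b i = m i - a`, `a = m 8`, `3 β = ∑_{i < 8} b i + s`, `b 0 + b 1 + b 2 ≤ β` and the `b i` decrease, so
`∑_{i < 8} b i ≤ 8 β / 3`, `β ≤ 3 s` (compare `ar_tail`). `chi_low1`: as `chi_low` in `Hal/CoreN.lean`.
`top_zero`: `G ^ q * (G ^ 2 * H) ∈ W`, so `G ^ 2 * H ∈ Sp (d + 1 - 3 N q)` (`Hal.pow_mem`), `InV (6 N)`, and `¬ InV (2 * (3 N)) (G ^ 2)`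
(`not_inV_pow`, `Hal.not_inV`), `inV_cancel`. `top_one`: the same with `G`, if `a + s < N`.
-/

open Polynomial

set_option autoImplicit false

namespace Pool.Agent.Lib.MP_6b2d39_agTen

open Pool.Agent.Lib.MP_6b2d39_ag Pool.Agent.Lib.MP_6b2d39_agWin Pool.Agent.Lib.MP_6b2d39_agNw
  Pool.Agent.Lib.MP_6b2d39_agHal

variable {N d s q : ℕ} {m : Fin 9 → ℕ} {t : Fin 9 → ℂ} {G : ℂ[X][X]}

private theorem deg_ge (hm : Antitone m) (hd : 3 * d = ∑ i, m i + s) : 3 * m 8 ≤ d := by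
  have h1 : ∑ _i : Fin 9, m 8 ≤ ∑ i, m i := Finset.sum_le_sum fun i _ => hm (Fin.le_last i)
  rw [Finset.sum_const, Finset.card_univ, Fintype.card_fin, smul_eq_mul] at h1
  omega

/-- The common part: divide by `G ^ q`. -/
private theorem deg_div (h : Hal N t G) (hm : Antitone m) (hd : 3 * d = ∑ i, m i + s)
    (h1 : q * N ≤ m 8) {F : ℂ[X][X]}
    (hF : G ^ q * F ∈ Sp (d + 1) (fun i => gam (t i)) m) {k : ℕ}
    (hk : d + 1 ≤ 3 * (q * N) + k) : InV k F := by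
  have h2 := deg_ge hm hd
  have h3 : q * (3 * N) = 3 * (q * N) := by ring
  have h4 := (h.pow_mem (k := q) (fun i => h1.trans (hm (Fin.le_last i))) (by omega) F).1 hF
  exact inV_mono (by omega) (mem_Sp.1 h4).1

theorem top_zero (h : Hal N t G) (hm : Antitone m) (hr : m 0 + m 1 + m 2 ≤ d)
    (hd : 3 * d = ∑ i, m i + s) (hsN : s ≤ N) (h1 : q * N ≤ m 8) (h2 : m 8 < (q + 1) * N)
    {F : ℂ[X][X]} (hF : G ^ (q + 2) * F ∈ Sp (d + 1) (fun i => gam (t i)) m) : F = 0 := by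
  have h3 := deg_le hm hr hd
  have h4 : (q + 1) * N = q * N + N := by ring
  rw [pow_add, mul_assoc] at hF
  have h5 : InV (2 * (3 * N) + 0) (G ^ 2 * F) := deg_div h hm hd h1 hF (by omega)
  exact InV_zero (inV_cancel (not_inV_pow h.not_inV 2) h5)

theorem top_one (h : Hal N t G) (hm : Antitone m) (hr : m 0 + m 1 + m 2 ≤ d)
    (hd : 3 * d = ∑ i, m i + s) (h1 : q * N ≤ m 8) (h2 : m 8 + s < (q + 1) * N)
    {F : ℂ[X][X]} (hF : G ^ (q + 1) * F ∈ Sp (d + 1) (fun i => gam (t i)) m) : F = 0 := by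
  have h3 := deg_le hm hr hd
  have h4 : (q + 1) * N = q * N + N := by ring
  rw [pow_add, pow_one, mul_assoc] at hF
  have h5 : InV (3 * N + 0) (G * F) := deg_div h hm hd h1 hF (by omega)
  exact InV_zero (inV_cancel h.not_inV h5)

end Pool.Agent.Lib.MP_6b2d39_agTen
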