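import Pool.Agent.Lib.MP_6b2d39_agHal.Halrow

/-!
Degree and expected dimension of reduced nine-point classes.

PROOFS. `deg_le`: `β = d - 3 a`, `b i = m i - a`, `a = m 8`, `3 β = ∑_{i < 8} b i + s`, `b 0 + b 1 + b 2 ≤ β` and the `b i` decrease, so
`∑_{i < 8} b i ≤ 8 β / 3`, `β ≤ 3 s` (compare `ar_tail`). `chi_low1`: as `chi_low` in `Hal/CoreN.lean`.
`top_zero`: `G ^ q * (G ^ 2 * H) ∈ W`, so `G ^ 2 * H ∈ Sp (d + 1 - 3 N q)` (`Hal.pow_mem`), `InV (6 N)`, and `¬ InV (2 * (3 N)) (G ^ 2)`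
(`not_inV_pow`, `Hal.not_inV`), `inV_cancel`. `top_one`: the same with `G`, if `a + s < N`.
-/

open Polynomial

set_option autoImplicit false

namespace Pool.Agent.Lib.MP_6b2d39_agTen

open Pool.Agent.Lib.MP_6b2d39_ag Pool.Agent.Lib.MP_6b2d39_agWin Pool.Agent.Lib.MP_6b2d39_agNw
  Pool.Agent.Lib.MP_6b2d39_agHal

variable {N d s q : ℕ} {m : Fin 9 → ℕ} {t : Fin 9 → ℂ} {G : ℂ[X][X]}

theorem deg_le (hm : Antitone m) (hr : m 0 + m 1 + m 2 ≤ d) (hd : 3 * d = ∑ i, m i + s) :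
    d ≤ 3 * s + 3 * m 8 := by
  have h01 : m 1 ≤ m 0 := hm (by decide)
  have h12 : m 2 ≤ m 1 := hm (by decide)
  have h23 : m 3 ≤ m 2 := hm (by decide)
  have h24 : m 4 ≤ m 2 := hm (by decide)
  have h25 : m 5 ≤ m 2 := hm (by decide)
  have h26 : m 6 ≤ m 2 := hm (by decide)
  have h27 : m 7 ≤ m 2 := hm (by decide)
  have hsum : ∑ i, m i = m 0 + m 1 + m 2 + m 3 + m 4 + m 5 + m 6 + m 7 + m 8 := by
    simp [Fin.sum_univ_succ]
    ring
  rw [hsum] at hd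
  omega

theorem chi_low1 (hN : 1 ≤ N) (hs : 1 ≤ s) (hm : Antitone m) (hr : m 0 + m 1 + m 2 ≤ d)
    (hd : 3 * d = ∑ i, m i + s) (h1 : q * N ≤ m 8) :
    ∑ i, (m i + 1).choose 2 + N * s * q ≤ (d + 2).choose 2 := by
  obtain ⟨t, G, hG⟩ := exists_hal N (by omega)
  have key : ∀ k : ℕ, k * N ≤ m 8 →
      Module.finrank ℂ (quo G 0 (Sp (d + 1) (fun i => gam (t i)) m)) =
        N * s * k + Module.finrank ℂ (quo G k (Sp (d + 1) (fun i => gam (t i)) m)) := by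
    intro k
    induction k with
    | zero =>
      intro _
      rw [mul_zero, zero_add]
    | succ k ih =>
      intro hk
      rw [ih ((Nat.mul_le_mul_right N (Nat.le_succ k)).trans hk), hG.row hm hr hs hd hk]
      ring
  have h2 := hG.finrank_quo hm hr hs hd (k := 0) (by rw [zero_mul]; exact Nat.zero_le _)
  rw [key q h1] at h2
  simp only [zero_mul, tsub_zero] at h2
  omega

end Pool.Agent.Lib.MP_6b2d39_agTen
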