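import Pool.Agent.Lib.MP_6b2d39_agTen.RowsT
import Pool.Agent.Lib.MP_6b2d39_agHal.Step

/-!
Nine heavy points and points of multiplicity at most `M`: exact filling.

PROOF. `q = m 8 / N`, `W = Sp (d + 1) m`, `f b = finrank (quo G b W)`. `f b = N s + f (b + 1)` for `b < q` (`Hal.row`);
`f (q + 2) = 0` (`top_zero`); `x = f q - f (q + 1)`, `y = f (q + 1)`; `y ≤ x ≤ N s` (`mono` for `b = q` and `b = q - 1`; `f` is non
increasing, `finrank_quo_mulF`). If `m 8 + s < (q + 1) N` then `y = 0` (`top_one`); otherwise `a = m 8 - q N ≥ N - s ≥ 2 M + 1` and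
`x + y = f q ≥ a s ≥ 2 M + 1` (`Hal.finrank_quo`, `chi_low1` with `N = 1`, `q = a` for the class `d - q (3 N)`, `m i - q N`), so `x ≥ M + 1`.
`f 0 = N s q + x + y = (d + 2).choose 2 - ∑ (m i + 1).choose 2`. `emp_block` with `H = N s`, `diagram` with `n = q + 2`,
`r = blk (N s) q x y`.
-/

open Polynomial

set_option autoImplicit false

namespace Pool.Agent.Lib.MP_6b2d39_agTen

open Pool.Agent.Lib.MP_6b2d39_ag Pool.Agent.Lib.MP_6b2d39_agWin Pool.Agent.Lib.MP_6b2d39_agNw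
  Pool.Agent.Lib.MP_6b2d39_agHal

variable {M N d s : ℕ} {m : Fin 9 → ℕ} {t : Fin 9 → ℂ} {G : ℂ[X][X]}

theorem core_exact {ι : Type} [Fintype ι] [DecidableEq ι] {l : ι → ℕ} {J : Finset ι}
    (hM : 1 ≤ M) (hs : 1 ≤ s) (hN : s + 2 * M + 1 ≤ N) (hm : Antitone m)
    (hr : m 0 + m 1 + m 2 ≤ d) (hd : 3 * d = ∑ i, m i + s)
    (h8 : (9 * M ^ 2 + 2 * M) * N ≤ m 8) (hJ : ∀ j ∈ J, l j ≤ M)
    (hmass : (d + 2).choose 2 ≤ ∑ i, (m i + 1).choose 2 + mass l J) :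
    ∃ (p : Fin 9 → ℂ × ℂ) (x y : ι → ℂ), ∀ F ∈ Sp (d + 1) p m,
      (∀ i ∈ J, Cond (Finset.Icc 1 (l i)) (x i) (y i) F) → F = 0 := by
  obtain ⟨t, G, hG⟩ := exists_hal N (by omega)
  have h8' : N ≤ m 8 := by
    refine le_trans ?_ h8
    refine Nat.le_mul_of_pos_left N ?_
    have : 0 < 2 * M := by omega
    omega
  obtain ⟨q, x, y, hq1, hq2, hyx, hxH, hyM, hrow, hsum⟩ := rows_two hG hs hN hm hr hd h8'
  have hH : 2 * M + 1 ≤ N * s := by
    have h1 : N * 1 ≤ N * s := Nat.mul_le_mul_left N hs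
    omega
  have hq : 9 * M ^ 2 + 2 * M ≤ q := by
    have h1 : (9 * M ^ 2 + 2 * M) * N < (q + 1) * N := lt_of_le_of_lt h8 hq2
    have h2 : 9 * M ^ 2 + 2 * M < q + 1 := lt_of_mul_lt_mul_right h1 (Nat.zero_le N)
    omega
  have hE : EmpP (dgm (blk (N * s) q x y) (q + 2)) l J :=
    emp_block hM hH hq hyx hxH hyM hJ (by omega)
  obtain ⟨x', y', hxy⟩ := diagram (f := G) hG.irr hG.natDegree hG.dep
    (W := Sp (d + 1) (fun i => gam (t i)) m) (n := q + 2) (r := blk (N * s) q x y) hrow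
    (fun F hF => top_zero hG hm hr hd (by omega) hq1 hq2 hF) hE
  exact ⟨fun i => gam (t i), x', y', hxy⟩

end Pool.Agent.Lib.MP_6b2d39_agTen
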