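import Pool.Agent.Lib.MP_6b2d39_agNf.Exc

/-!
Exact filling of a Young diagram with `H` columns of lengths `q + [a < x] + [a < y]`.

PROOF of `fillable_two`. `A = H` (`d1` is empty), `T = x + y + w`. If `x + w ≤ H`: `dem a = q + [a < x + w] + [a < y]`, if
`T ≤ 2 H`: `dem a = q + 1 + [a < T - H]`, otherwise `dem a = q + 2 + [a < T - 2 H]`. `Lam b dem ≤ 2 b` for `b < M`: `lam_ind` for one
indicator, and the indicator of `[a < v]` contributes `0` if `b + 2 ≤ v` (`Lam_add`, `Lam_congr`): for `y = 0` there is one indicator,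
for `y ≥ 1` we have `x + w ≥ M + 1 ≥ b + 2`.
PROOF of `emp_block`. `EmpP.of_swap`: the image of `dgm r (q + 2)` under `Prod.swap` is `dgm (fun a => q + [a < x] + [a < y]) H`
(compare `emp_exc`); `emp_of_fillable`.
-/

set_option autoImplicit false

namespace Pool.Agent.Lib.MP_6b2d39_agTen

open Pool.Agent.Lib.MP_6b2d39_ag Pool.Agent.Lib.MP_6b2d39_agArr Pool.Agent.Lib.MP_6b2d39_agWin
  Pool.Agent.Lib.MP_6b2d39_agNw Pool.Agent.Lib.MP_6b2d39_agNf

private theorem two_ind (w n : ℕ) :
    ∑ x ∈ Finset.range n, (if x < w then (1 : ℤ) else 0) = (min w n : ℕ) := by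
  induction n with
  | zero => simp
  | succ n ih =>
    rw [Finset.sum_range_succ, ih]
    split_ifs with h
    · have h1 : min w (n + 1) = min w n + 1 := by omega
      rw [h1]
      push_cast
      ring
    · have h1 : min w (n + 1) = min w n := by omega
      rw [h1, add_zero]

private theorem two_dem {M H q : ℕ} {dem : ℕ → ℤ} (hM : 1 ≤ M) (hH : 2 * M + 1 ≤ H)
    (hq : 9 * M ^ 2 + 2 * M ≤ q) (h1 : ∀ a, (q : ℤ) ≤ dem a) (h2 : ∀ a, dem (a + 1) ≤ dem a)
    (h3 : ∀ b, 1 ≤ b → b < M → ∃ (c : ℤ) (v : ℕ), ∀ a ≤ b + 1,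
      dem a = c + if a < v then 1 else 0) : Dem M H H dem := by
  have hq' : 9 * (M : ℤ) ^ 2 + 2 * M ≤ q := by exact_mod_cast hq
  have hM' : (1 : ℤ) ≤ M := by exact_mod_cast hM
  refine ⟨hM, hH, hH, fun b hb hb' => by omega, fun b _ => ?_, fun b _ => ?_, fun b _ _ => ?_,
    fun b hb hb' => ?_⟩
  · have := h2 b
    linarith
  · have := h1 b
    nlinarith
  · exact hq'.trans (h1 b)
  · obtain ⟨c, v, hcv⟩ := h3 b hb hb'
    refine le_trans (le_of_eq (Lam_congr fun a ha => ?_)) (lam_ind (w := v) hb c 0)
    rw [hcv a ha, zero_mul, sub_zero]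

theorem fillable_two {M H q x y : ℕ} (hM : 1 ≤ M) (hH : 2 * M + 1 ≤ H)
    (hq : 9 * M ^ 2 + 2 * M ≤ q) (hyx : y ≤ x) (hxH : x ≤ H) (h : y = 0 ∨ M + 1 ≤ x) :
    Fillable M H (fun a => q + (if a < x then 1 else 0) + if a < y then 1 else 0) := by
  intro w hw
  beta_reduce
  have hsum : ∑ b ∈ Finset.range H, (((q + (if b < x then 1 else 0) +
      if b < y then 1 else 0 : ℕ) : ℕ) : ℤ) = (H * q + x + y : ℕ) := by
    have e1 : ∀ b ∈ Finset.range H, (((q + (if b < x then 1 else 0) +
        if b < y then 1 else 0 : ℕ) : ℕ) : ℤ) = (q : ℤ) + (if b < x then (1 : ℤ) else 0) +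
          if b < y then (1 : ℤ) else 0 := by
      intro b _
      split_ifs <;> push_cast <;> ring
    rw [Finset.sum_congr rfl e1, Finset.sum_add_distrib, Finset.sum_add_distrib, two_ind, two_ind,
      Finset.sum_const, Finset.card_range, nsmul_eq_mul]
    have e2 : min x H = x := by omega
    have e3 : min y H = y := by omega
    rw [e2, e3]
    push_cast
    ring
  rcases Nat.lt_or_ge H (x + w) with hC | hC
  · rcases Nat.lt_or_ge (2 * H) (x + y + w) with hC2 | hC2
    · -- two full rows
      refine ⟨H, fun a => (q : ℤ) + 2 + if a < x + y + w - 2 * H then 1 else 0,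
        two_dem hM hH hq (fun a => ?_) (fun a => ?_)
          (fun b _ _ => ⟨(q : ℤ) + 2, x + y + w - 2 * H, fun a _ => rfl⟩), fun b _ => ?_, ?_⟩
      · split_ifs <;> linarith
      · split_ifs <;> omega
      · beta_reduce
        push_cast
        split_ifs <;> linarith
      · rw [hsum, Finset.sum_add_distrib, two_ind, Finset.sum_const, Finset.card_range,
          nsmul_eq_mul]
        have e1 : min (x + y + w - 2 * H) H = x + y + w - 2 * H := by omega
        rw [e1, Nat.cast_sub (by omega)]
        push_cast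
        ring
    · -- one full row
      refine ⟨H, fun a => (q : ℤ) + 1 + if a < x + y + w - H then 1 else 0,
        two_dem hM hH hq (fun a => ?_) (fun a => ?_)
          (fun b _ _ => ⟨(q : ℤ) + 1, x + y + w - H, fun a _ => rfl⟩), fun b _ => ?_, ?_⟩
      · split_ifs <;> linarith
      · split_ifs <;> omega
      · beta_reduce
        push_cast
        split_ifs <;> omega
      · rw [hsum, Finset.sum_add_distrib, two_ind, Finset.sum_const, Finset.card_range,
          nsmul_eq_mul]
        have e1 : min (x + y + w - H) H = x + y + w - H := by omega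
        rw [e1, Nat.cast_sub (by omega)]
        push_cast
        ring
  · refine ⟨H, fun a => (q : ℤ) + (if a < x + w then 1 else 0) + if a < y then 1 else 0,
      two_dem hM hH hq (fun a => ?_) (fun a => ?_) (fun b hb hb' => ?_), fun b _ => ?_, ?_⟩
    · split_ifs <;> linarith
    · split_ifs <;> omega
    · rcases h with h0 | h0
      · refine ⟨q, x + w, fun a _ => ?_⟩
        rw [if_neg (show ¬ a < y by omega), add_zero]
      · refine ⟨(q : ℤ) + 1, y, fun a ha => ?_⟩
        rw [if_pos (show a < x + w by omega)]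
    · beta_reduce
      push_cast
      split_ifs <;> omega
    · rw [hsum, Finset.sum_add_distrib, Finset.sum_add_distrib, two_ind, two_ind,
        Finset.sum_const, Finset.card_range, nsmul_eq_mul]
      have e2 : min (x + w) H = x + w := by omega
      have e3 : min y H = y := by omega
      rw [e2, e3]
      push_cast
      ring

end Pool.Agent.Lib.MP_6b2d39_agTen
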