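import Pool.Agent.Lib.MP_6b2d39_agTen.NineE
import Pool.Agent.Lib.MP_6b2d39_agNf.Many

/-!
Nine arbitrary multiplicities: finiteness.
-/

open Polynomial

set_option autoImplicit false

namespace Pool.Agent.Lib.MP_6b2d39_agTen

open Pool.Agent.Lib.MP_6b2d39_ag Pool.Agent.Lib.MP_6b2d39_agWin Pool.Agent.Lib.MP_6b2d39_agNw
  Pool.Agent.Lib.MP_6b2d39_agHal Pool.Agent.Lib.MP_6b2d39_agCr Pool.Agent.Lib.MP_6b2d39_agNf

/-- the bound for the ninth largest multiplicity -/
def Bd (M : ℕ) : ℕ := (9 * M ^ 2 + 2 * M) * (72 * M ^ 2 + 94 * M + 29)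

theorem le_Bd (M : ℕ) : M ≤ Bd M := by
  unfold Bd
  nlinarith [Nat.zero_le M, Nat.zero_le (M ^ 2), Nat.zero_le (M ^ 3), Nat.zero_le (M ^ 4)]

/-- at most nine multiplicities larger than `M` and nine larger than `Bd M` -/
theorem reduced_ten {h : ℕ} (hh : 3 ≤ h) {e : ℕ} {n : Fin h → ℕ} (hred : Reduced e n) {M : ℕ}
    (hM : 1 ≤ M) (hcard : (Finset.univ.filter (fun i => M < n i)).card ≤ 9)
    (hB : ¬ (Finset.univ.filter (fun i => Bd M < n i)).card ≤ 8) :
    General (fun P => (Module.finrank ℂ (curves e n P) : ℤ) = max (vd e n) 0) := by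
  have hsub : Finset.univ.filter (fun i => Bd M < n i) ⊆
      Finset.univ.filter (fun i => M < n i) := by
    intro i hi
    rw [Finset.mem_filter] at hi ⊢
    exact ⟨hi.1, lt_of_le_of_lt (le_Bd M) hi.2⟩
  have h1 := Finset.card_le_card hsub
  have hc : (Finset.univ.filter (fun i => M < n i)).card = 9 := by omega
  have heq := Finset.eq_of_subset_of_card_le hsub (by omega)
  rcases Nat.lt_or_ge (3 * e) (∑ i ∈ Finset.univ.filter (fun i => M < n i), n i +
    (72 * M ^ 2 + 92 * M + 29)) with hs | hs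
  · refine nine_exact hM hred hc hs fun i hi => ?_
    have h2 : i ∈ Finset.univ.filter (fun i => M < n i) :=
      Finset.mem_filter.2 ⟨Finset.mem_univ _, hi⟩
    rw [← heq, Finset.mem_filter] at h2
    exact h2.2.le
  · exact reduced_nine hh hred hM hc hs

/-- the final theorem -/
theorem hh_finite_ten {h : ℕ} (hh : 3 ≤ h) (d : ℕ) (m : Fin h → ℕ) :
    General (fun P => IsSpecial d m P ↔ IsMinusOneSpecial d m P) ∨
      ∃ (e : ℕ) (n : Fin h → ℕ), Relation.ReflTransGen CremonaStep (d, m) (e, n) ∧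
        (∀ i, n i ≤ m i) ∧ Reduced e n ∧ General (fun P => IsSpecial e n P) ∧
        ∀ M : ℕ, 1 ≤ M →
          ((Finset.univ.filter (fun i => M < n i)).card ≤ 3 → e < 27 * M ^ 2 + 6 * M ∧
            ∑ i, (n i + 1).choose 2 < (27 * M ^ 2 + 6 * M + 2).choose 2) ∧
          ((Finset.univ.filter (fun i => M < n i)).card ≤ 8 → e < 36 * M ^ 2 + 60 * M + 27 ∧
            ∑ i, (n i + 1).choose 2 < (36 * M ^ 2 + 60 * M + 29).choose 2) ∧
          ((Finset.univ.filter (fun i => M < n i)).card ≤ 9 →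
            (Finset.univ.filter (fun i => Bd M < n i)).card ≤ 8 ∧
            e < 36 * Bd M ^ 2 + 60 * Bd M + 27 ∧
            ∑ i, (n i + 1).choose 2 < (36 * Bd M ^ 2 + 60 * Bd M + 29).choose 2) := by
  rcases hh_main hh d m with h1 | ⟨e, n, hr, hred, hbad⟩
  · exact Or.inl h1
  · refine Or.inr ⟨e, n, hr, fun i => le_of_reach hr i, hred, general_special_of_bad hbad, ?_⟩
    intro M hM
    refine ⟨fun hc => ⟨?_, ?_⟩, fun hc => ⟨?_, ?_⟩, fun hc => ?_⟩
    · by_contra hcon
      exact hbad (reduced_large hh hred hM hc (not_lt.1 hcon))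
    · by_contra hcon
      exact hbad (reduced_many hh hred hM hc (not_lt.1 hcon))
    · by_contra hcon
      exact hbad (reduced_large8 hh hred hM hc (not_lt.1 hcon))
    · by_contra hcon
      exact hbad (reduced_many8 hh hred hM hc (not_lt.1 hcon))
    · have h8 : (Finset.univ.filter (fun i => Bd M < n i)).card ≤ 8 := by
        by_contra hcon
        exact hbad (reduced_ten hh hred hM hc hcon)
      have hM' : 1 ≤ Bd M := hM.trans (le_Bd M)
      refine ⟨h8, ?_, ?_⟩
      · by_contra hcon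
        exact hbad (reduced_large8 hh hred hM' h8 (not_lt.1 hcon))
      · by_contra hcon
        exact hbad (reduced_many8 hh hred hM' h8 (not_lt.1 hcon))

end Pool.Agent.Lib.MP_6b2d39_agTen
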