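import Pool.Agent.Lib.MP_6b2d39_agTen.MonoF

/-!
The rows of a system on the curve `G` do not increase.

PROOF of `mono_fin`. `V1' = u V1` has the dimension of `V1`, `V1' ⊓ mulF f = u (V1 ⊓ mulF f)` (`f` prime, `f ∤ u`), `V1' ≤ V2`;
`Submodule.finrank_sup_add_finrank_inf_eq` for `V1'` and `V2 ⊓ mulF f`. (Maps from coerced submodules of `ℂ[X][X]` can be slow: state
the linear algebra generically.)
PROOF of `Hal.not_dvd`: `G ∣ cub ^ k` gives `G ∣ cub`, `cub = G * A`, `res A = 0` (`res G ≠ 0`), `A = cub * B` (`exists_cub_mul`), `G` is a unit.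
PROOF of `Hal.mul_quo`. `G ^ (b + 1) * F = G * (G ^ b * F)`: the degree of `G ^ b * F` is smaller by `3 N` (`not_inV`, `inV_cancel`), the
multiplicities by `N` (`not_mult`, `mult_cancel`); `inV_cub`, `mult_cub`, `inV_mul`, `inV_pow`, `mult_mul`, `mult_pow`.
PROOF of `Hal.mono`. `mono_fin` for `V1 = quo G (b + 1) W`, `V2 = quo G b W`, `u = cub ^ N`, and `finrank_quo_mulF`.
-/

open Polynomial

set_option autoImplicit false

namespace Pool.Agent.Lib.MP_6b2d39_agTen

open Pool.Agent.Lib.MP_6b2d39_ag Pool.Agent.Lib.MP_6b2d39_agHal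

variable {N : ℕ} {t : Fin 9 → ℂ} {G : ℂ[X][X]}

theorem not_dvd_cub (h : Hal N t G) (k : ℕ) : ¬ G ∣ cub ^ k := by
  intro hk
  have hirr := h.irr
  have hd := hirr.prime.dvd_of_dvd_pow hk
  obtain ⟨A, hA⟩ := hd
  have hresG : res G ≠ 0 := by
    obtain ⟨c, hc, hr⟩ := h.res
    rw [hr]
    refine mul_ne_zero (C_ne_zero.2 hc) (Finset.prod_ne_zero_iff.2 fun i _ => ?_)
    exact pow_ne_zero _ (X_sub_C_ne_zero (t i))
  have h1 : res G * res A = 0 := by rw [← map_mul, ← hA, res_cub]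
  have h2 := (mul_eq_zero.1 h1).resolve_left hresG
  obtain ⟨n, hn⟩ := exists_inV A
  obtain ⟨B, hB, -⟩ := exists_cub_mul hn h2
  have hc : cub ≠ 0 := by
    intro h0
    refine not_inV_cub ?_
    rw [h0]
    intro i j _
    simp
  apply hirr.not_isUnit
  refine IsUnit.of_mul_eq_one B ?_
  refine mul_left_cancel₀ hc ?_
  rw [mul_one]
  nth_rewrite 2 [hA]
  rw [hB]
  ring

theorem mul_quo (h : Hal N t G) {n b : ℕ} {m : Fin 9 → ℕ} {F : ℂ[X][X]}
    (hF : F ∈ quo G (b + 1) (Sp n (fun i => gam (t i)) m)) :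
    cub ^ N * F ∈ quo G b (Sp n (fun i => gam (t i)) m) := by
  rw [mem_quo, mem_Sp] at hF ⊢
  obtain ⟨h1, h2⟩ := hF
  have e1 : G ^ (b + 1) * F = G * (G ^ b * F) := by ring
  have e2 : G ^ b * (cub ^ N * F) = cub ^ N * (G ^ b * F) := by ring
  rw [e1] at h1 h2
  rw [e2]
  obtain ⟨K, hK⟩ : ∃ K, K = G ^ b * F := ⟨_, rfl⟩
  rw [← hK] at h1 h2 ⊢
  constructor
  · by_cases hn : 3 * N ≤ n
    · have h3 : InV (n - 3 * N) K := by
        refine inV_cancel h.not_inV ?_
        rwa [Nat.add_sub_cancel' hn]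
      have h4 := inV_mul (inV_pow inV_cub N) h3
      rw [mul_comm N 3, Nat.add_sub_cancel' hn] at h4
      exact h4
    · have h3 : InV 0 K := by
        refine inV_cancel h.not_inV ?_
        exact inV_mono (by omega) h1
      rw [InV_zero h3, mul_zero]
      intro i j _
      simp
  · intro i
    have h5 : Mult (N * 1) (gam (t i)) (cub ^ N) := mult_pow (mult_cub (t i)) N
    rw [mul_one] at h5
    by_cases hn : N ≤ m i
    · have h3 : Mult (m i - N) (gam (t i)) K := by
        refine mult_cancel (h.not_mult i) ?_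
        rw [Nat.add_sub_cancel' hn]
        exact h2 i
      have h4 := mult_mul h5 h3
      rw [Nat.add_sub_cancel' hn] at h4
      exact h4
    · have h4 := mult_mul h5 (mult_zero (gam (t i)) K)
      exact mult_anti (by omega) h4

theorem mono (h : Hal N t G) (n b : ℕ) (m : Fin 9 → ℕ) :
    Module.finrank ℂ (quo G (b + 1) (Sp n (fun i => gam (t i)) m)) +
        Module.finrank ℂ (quo G (b + 1) (Sp n (fun i => gam (t i)) m)) ≤
      Module.finrank ℂ (quo G b (Sp n (fun i => gam (t i)) m)) +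
        Module.finrank ℂ (quo G (b + 2) (Sp n (fun i => gam (t i)) m)) := by
  have hG := h.ne_zero
  have i1 := quo_finite hG (b + 1) (Sp n (fun i => gam (t i)) m)
  have i2 := quo_finite hG b (Sp n (fun i => gam (t i)) m)
  have h1 := mono_fin h.irr (not_dvd_cub h N) (quo G (b + 1) (Sp n (fun i => gam (t i)) m))
    (quo G b (Sp n (fun i => gam (t i)) m)) (fun F hF => mul_quo h hF)
  rw [finrank_quo_mulF hG, finrank_quo_mulF hG] at h1
  exact h1

end Pool.Agent.Lib.MP_6b2d39_agTen
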