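import Pool.Agent.Lib.MP_6b2d39_agHal.Halrow
import Pool.Agent.Lib.MP_6b2d39_agHal.Res

/-!
The rows of a system on the curve `G` do not increase.

PROOF of `mono_fin`. `V1' = u V1` has the dimension of `V1`, `V1' ⊓ mulF f = u (V1 ⊓ mulF f)` (`f` prime, `f ∤ u`), `V1' ≤ V2`;
`Submodule.finrank_sup_add_finrank_inf_eq` for `V1'` and `V2 ⊓ mulF f`. (Maps from coerced submodules of `ℂ[X][X]` can be slow: state
the linear algebra generically.)
PROOF of `Hal.not_dvd`: `G ∣ cub ^ k` gives `G ∣ cub`, `cub = G * A`, `res A = 0` (`res G ≠ 0`), `A = cub * B` (`exists_cub_mul`), `G` is a unit.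
PROOF of `Hal.mul_quo`. `G ^ (b + 1) * F = G * (G ^ b * F)`: the degree of `G ^ b * F` is smaller by `3 N` (`not_inV`, `inV_cancel`), the
multiplicities by `N` (`not_mult`, `mult_cancel`); `inV_cub`, `mult_cub`, `inV_mul`, `inV_pow`, `mult_mul`, `mult_pow`.
PROOF of `Hal.mono`. `mono_fin` for `V1 = quo G (b + 1) W`, `V2 = quo G b W`, `u = cub ^ N`, and `finrank_quo_mulF`.
-/

open Polynomial

set_option autoImplicit false

namespace Pool.Agent.Lib.MP_6b2d39_agTen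

open Pool.Agent.Lib.MP_6b2d39_ag Pool.Agent.Lib.MP_6b2d39_agWin Pool.Agent.Lib.MP_6b2d39_agNw
  Pool.Agent.Lib.MP_6b2d39_agHal

private theorem monoF_gen {E : Type} [AddCommGroup E] [Module ℂ E] (A : E →ₗ[ℂ] E)
    (hA : Function.Injective A) (V1 V2 M : Submodule ℂ E) [FiniteDimensional ℂ V1]
    [FiniteDimensional ℂ V2] (h1 : ∀ F ∈ V1, A F ∈ V2) (h2 : ∀ F ∈ V1, A F ∈ M → F ∈ M) :
    Module.finrank ℂ V1 + Module.finrank ℂ ↥(V2 ⊓ M) ≤
      Module.finrank ℂ V2 + Module.finrank ℂ ↥(V1 ⊓ M) := by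
  have e1 : Module.finrank ℂ ↥(V1.map A) = Module.finrank ℂ V1 :=
    (Submodule.equivMapOfInjective A hA V1).finrank_eq.symm
  have e2 : Module.finrank ℂ ↥((V1 ⊓ M).map A) = Module.finrank ℂ ↥(V1 ⊓ M) :=
    (Submodule.equivMapOfInjective A hA (V1 ⊓ M)).finrank_eq.symm
  have i1 : V1.map A ≤ V2 := by
    rintro _ ⟨F, hF, rfl⟩
    exact h1 F hF
  have i2 : V1.map A ⊓ (V2 ⊓ M) ≤ (V1 ⊓ M).map A := by
    rintro _ ⟨⟨F, hF, rfl⟩, -, hM⟩
    exact ⟨F, ⟨hF, h2 F hF hM⟩, rfl⟩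
  haveI : FiniteDimensional ℂ ↥(V1 ⊓ M) := Submodule.finiteDimensional_inf_left V1 M
  haveI : FiniteDimensional ℂ ↥(V2 ⊓ M) := Submodule.finiteDimensional_inf_left V2 M
  haveI : FiniteDimensional ℂ ↥((V1 ⊓ M).map A) :=
    Module.Finite.equiv (Submodule.equivMapOfInjective A hA (V1 ⊓ M))
  haveI : FiniteDimensional ℂ ↥(V1.map A) :=
    Module.Finite.equiv (Submodule.equivMapOfInjective A hA V1)
  have k1 := Submodule.finrank_sup_add_finrank_inf_eq (V1.map A) (V2 ⊓ M)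
  have k2 : Module.finrank ℂ ↥(V1.map A ⊔ (V2 ⊓ M)) ≤ Module.finrank ℂ V2 :=
    Submodule.finrank_mono (sup_le i1 inf_le_left)
  have k3 : Module.finrank ℂ ↥(V1.map A ⊓ (V2 ⊓ M)) ≤ Module.finrank ℂ ↥((V1 ⊓ M).map A) :=
    Submodule.finrank_mono i2
  omega

theorem mono_fin {f u : ℂ[X][X]} (hf : Irreducible f) (hu : ¬ f ∣ u)
    (V1 V2 : Submodule ℂ ℂ[X][X]) [FiniteDimensional ℂ V1] [FiniteDimensional ℂ V2]
    (h : ∀ F ∈ V1, u * F ∈ V2) :
    Module.finrank ℂ V1 + Module.finrank ℂ ↥(V2 ⊓ mulF f) ≤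
      Module.finrank ℂ V2 + Module.finrank ℂ ↥(V1 ⊓ mulF f) := by
  have hu0 : u ≠ 0 := fun h0 => hu (h0 ▸ dvd_zero f)
  refine monoF_gen (LinearMap.mulLeft ℂ u) (fun a b hab => mul_left_cancel₀ hu0 ?_) V1 V2
    (mulF f) ?_ ?_
  · simpa only [LinearMap.mulLeft_apply] using hab
  · intro F hF
    rw [LinearMap.mulLeft_apply]
    exact h F hF
  · intro F _ hF
    rw [LinearMap.mulLeft_apply, mem_mulF] at hF
    rw [mem_mulF]
    exact (hf.prime.dvd_or_dvd hF).resolve_left hu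

end Pool.Agent.Lib.MP_6b2d39_agTen
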