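import Pool.Agent.Lib.MP_6b2d39_agTen.Exact
import Pool.Agent.Lib.MP_6b2d39_agHal.CoreZ
import Pool.Agent.Lib.MP_6b2d39_agHal.Conf
import Pool.Agent.Lib.MP_6b2d39_agCr.Lower

/-!
Nine large multiplicities, the others at most `M`.

PROOF (as `window_neg`, `window_pos` in `Hal/WinA.lean`, `Hal/WinB.lean`). `exists_enum` for `S = {i | M < m i}`;
`s = 3 d - ∑_S m i` (`≥ 0` since the system is reduced), `u = vd d m` (as a natural number, `0` if negative), index type `Fin h ⊕ Fin u`,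
`J` = all light points `Sum.inl i`, `i ∉ S`, and all `Sum.inr k`; all multiplicities are `≤ M`, and
`(d + 2).choose 2 ≤ ∑_S (m i + 1).choose 2 + mass`. `s ≥ 1`: `core_exact` with `N = 72 M² + 94 M + 29`. `s = 0`: `ar_zero`,
`vd d m = 1 - ∑_{i ∉ S} (m i + 1).choose 2`, `core_zero`: `u = 1` if all light multiplicities are zero, otherwise some light point has
multiplicity `≥ 1` (`u = 0`). Then `exists_configT` and `general_nonspecial_of_le`.
-/

open Polynomial

set_option autoImplicit false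

namespace Pool.Agent.Lib.MP_6b2d39_agTen

open Pool.Agent.Lib.MP_6b2d39_ag Pool.Agent.Lib.MP_6b2d39_agWin Pool.Agent.Lib.MP_6b2d39_agNw
  Pool.Agent.Lib.MP_6b2d39_agHal Pool.Agent.Lib.MP_6b2d39_agCr

private theorem ne_split {h : ℕ} (S : Finset (Fin h)) (f : Fin h → ℕ) :
    ∑ l, f l = ∑ l ∈ S, f l + ∑ l ∈ Finset.univ.filter (fun l => l ∉ S), f l := by
  rw [← Finset.sum_filter_add_sum_filter_not Finset.univ (fun l => l ∈ S) f]
  congr 1
  apply Finset.sum_congr _ (fun _ _ => rfl)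
  ext l
  simp

private theorem ne_all {h u : ℕ} (τ : Fin 9 ↪ Fin h) {S : Finset (Fin h)}
    (hS : Finset.univ.map τ = S) :
    ((Finset.univ.filter (fun l : Fin h => l ∉ S)).map
      Function.Embedding.inl) ∪ (Finset.univ : Finset (Fin u)).map Function.Embedding.inr =
      (Finset.univ.filter (fun i : Fin h ⊕ Fin u => ∀ l, i ≠ Sum.inl (τ l))) := by
  ext i
  rw [Finset.mem_union, Finset.mem_map, Finset.mem_map, Finset.mem_filter]
  constructor
  · rintro (⟨l, hl, rfl⟩ | ⟨l, -, rfl⟩)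
    · refine ⟨Finset.mem_univ _, fun l' heq => ?_⟩
      rw [Finset.mem_filter] at hl
      apply hl.2
      have h1 : l = τ l' := Sum.inl_injective heq
      rw [h1, ← hS]
      exact Finset.mem_map_of_mem τ (Finset.mem_univ l')
    · refine ⟨Finset.mem_univ _, fun l' heq => ?_⟩
      simp at heq
  · rintro ⟨-, hi⟩
    rcases i with l | l
    · left
      refine ⟨l, ?_, rfl⟩
      rw [Finset.mem_filter]
      refine ⟨Finset.mem_univ _, fun hl => ?_⟩
      rw [← hS, Finset.mem_map] at hl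
      obtain ⟨l', -, h1⟩ := hl
      exact hi l' (by rw [h1])
    · right
      exact ⟨l, Finset.mem_univ _, rfl⟩

private theorem ne_choose (a : ℕ) : (3 * a + 2).choose 2 = 9 * (a + 1).choose 2 + 1 := by
  have h1 : 2 * (3 * a + 2).choose 2 = (3 * a + 2) * (3 * a + 1) := by
    have h2 := Nat.choose_two_right (3 * a + 2)
    rw [h2]
    have h3 : 2 ∣ (3 * a + 2) * (3 * a + 2 - 1) := (Nat.even_mul_pred_self (3 * a + 2)).two_dvd
    rw [Nat.mul_div_cancel' h3]
    rfl
  have h2 : 2 * (a + 1).choose 2 = (a + 1) * a := by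
    have h2 := Nat.choose_two_right (a + 1)
    rw [h2]
    have h3 : 2 ∣ (a + 1) * (a + 1 - 1) := (Nat.even_mul_pred_self (a + 1)).two_dvd
    rw [Nat.mul_div_cancel' h3]
    rfl
  have h3 : (3 * a + 2) * (3 * a + 1) = 9 * ((a + 1) * a) + 2 := by ring
  omega

theorem nine_exact {h d M : ℕ} {m : Fin h → ℕ} (hM : 1 ≤ M) (hred : Reduced d m)
    (hc : (Finset.univ.filter (fun i => M < m i)).card = 9)
    (hs : 3 * d < ∑ i ∈ Finset.univ.filter (fun i => M < m i), m i +
      (72 * M ^ 2 + 92 * M + 29))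
    (hB : ∀ i, M < m i → (9 * M ^ 2 + 2 * M) * (72 * M ^ 2 + 94 * M + 29) ≤ m i) :
    General (fun P => (Module.finrank ℂ (curves d m P) : ℤ) = max (vd d m) 0) := by
  obtain ⟨τ, hτ, hτS⟩ := exists_enum m hc
  set S : Finset (Fin h) := Finset.univ.filter (fun i => M < m i) with hSdef
  have hmemS : ∀ i, i ∈ S ↔ M < m i := fun i => by
    rw [hSdef, Finset.mem_filter]
    exact ⟨fun h => h.2, fun h => ⟨Finset.mem_univ _, h⟩⟩
  have hsumS : ∀ f : Fin h → ℕ, ∑ i ∈ S, f i = ∑ i, f (τ i) := by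
    intro f
    rw [← hτS, Finset.sum_map]
  -- reducedness
  have hr : m (τ 0) + m (τ 1) + m (τ 2) ≤ d := by
    have h1 := hred ((Fin.castLEEmb (by norm_num : 3 ≤ 9)).trans τ)
    rw [Fin.sum_univ_three] at h1
    exact h1
  have hsum9 : ∑ i, m (τ i) ≤ 3 * d := by
    have h1 : ∑ i, m (τ i) ≤ 3 * (m (τ 0) + m (τ 1) + m (τ 2)) := by
      have a1 : m (τ 1) ≤ m (τ 0) := hτ (by decide)
      have a2 : m (τ 2) ≤ m (τ 1) := hτ (by decide)
      have a3 : m (τ 3) ≤ m (τ 2) := hτ (by decide)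
      have a4 : m (τ 4) ≤ m (τ 2) := hτ (by decide)
      have a5 : m (τ 5) ≤ m (τ 2) := hτ (by decide)
      have a6 : m (τ 6) ≤ m (τ 2) := hτ (by decide)
      have a7 : m (τ 7) ≤ m (τ 2) := hτ (by decide)
      have a8 : m (τ 8) ≤ m (τ 2) := hτ (by decide)
      simp only [Fin.sum_univ_succ, Fin.sum_univ_zero]
      simp only [Fin.succ_zero_eq_one, Fin.succ_one_eq_two]
      change m (τ 0) + (m (τ 1) + (m (τ 2) + (m (τ 3) + (m (τ 4) + (m (τ 5) + (m (τ 6) +
        (m (τ 7) + (m (τ 8) + 0)))))))) ≤ _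
      omega
    omega
  rw [hsumS] at hs
  obtain ⟨s, hsd⟩ : ∃ s, 3 * d = ∑ i, m (τ i) + s := ⟨3 * d - ∑ i, m (τ i), by omega⟩
  have h8 : M < m (τ 8) := by
    rw [← hmemS, ← hτS]
    exact Finset.mem_map_of_mem τ (Finset.mem_univ 8)
  -- virtual dimension
  set A := ∑ i, (m (τ i) + 1).choose 2 with hA
  set L := ∑ l ∈ Finset.univ.filter (fun l => l ∉ S), (m l + 1).choose 2 with hL
  have hvd : vd d m = (((d + 2).choose 2 : ℕ) : ℤ) - (A : ℤ) - (L : ℤ) := by
    have h2 := ne_split S (fun l => (m l + 1).choose 2)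
    unfold vd
    have h3 : (∑ i, ((m i + 1).choose 2 : ℤ)) = ((∑ l, (m l + 1).choose 2 : ℕ) : ℤ) := by
      push_cast
      rfl
    rw [h3, h2, hsumS (fun l => (m l + 1).choose 2), ← hA, ← hL]
    push_cast
    ring
  obtain ⟨u, hu⟩ : ∃ u : ℕ, u = (vd d m).toNat := ⟨_, rfl⟩
  have hu1 : (u : ℤ) = max (vd d m) 0 := by
    rw [hu]
    exact Int.toNat_eq_max _
  have hu2 : (d + 2).choose 2 ≤ A + (L + u) := by
    have h1 : vd d m ≤ (u : ℤ) := by
      rw [hu1]
      exact le_max_left _ _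
    rw [hvd] at h1
    omega
  obtain ⟨J, hJ⟩ : ∃ J : Finset (Fin h ⊕ Fin u), J = ((Finset.univ.filter
      (fun l : Fin h => l ∉ S)).map Function.Embedding.inl) ∪
      (Finset.univ : Finset (Fin u)).map Function.Embedding.inr := ⟨_, rfl⟩
  have hmassJ : mass (Sum.elim m (fun _ => 1) : Fin h ⊕ Fin u → ℕ) J = L + u := by
    unfold mass
    rw [hJ, Finset.sum_union]
    · rw [Finset.sum_map, Finset.sum_map]
      simp only [Function.Embedding.inl_apply, Function.Embedding.inr_apply, Sum.elim_inl,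
        Sum.elim_inr]
      rw [← hL, Finset.sum_const, Finset.card_univ, Fintype.card_fin]
      simp
    · rw [Finset.disjoint_left]
      intro i hi hi'
      rw [Finset.mem_map] at hi hi'
      obtain ⟨a, -, rfl⟩ := hi
      obtain ⟨b, -, hb⟩ := hi'
      simp at hb
  have hJM : ∀ j ∈ J, (Sum.elim m (fun _ => 1) : Fin h ⊕ Fin u → ℕ) j ≤ M := by
    intro j hj
    rw [hJ, Finset.mem_union, Finset.mem_map, Finset.mem_map] at hj
    rcases hj with ⟨l, hl, rfl⟩ | ⟨l, -, rfl⟩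
    · rw [Finset.mem_filter, hmemS] at hl
      simp only [Function.Embedding.inl_apply, Sum.elim_inl]
      exact not_lt.1 hl.2
    · simp only [Function.Embedding.inr_apply, Sum.elim_inr]
      exact hM
  have hE : ∃ (p : Fin 9 → ℂ × ℂ) (x y : Fin h ⊕ Fin u → ℂ),
      ∀ F ∈ Sp (d + 1) p (fun i => m (τ i)),
        (∀ i ∈ J, Cond (Finset.Icc 1 ((Sum.elim m (fun _ => 1) : Fin h ⊕ Fin u → ℕ) i))
          (x i) (y i) F) → F = 0 := by
    rcases Nat.eq_zero_or_pos s with h0 | hs1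
    · rw [h0, add_zero] at hsd
      obtain ⟨h1, h2⟩ := ar_zero (m := fun i => m (τ i)) hτ hr hsd
      have h1 : d = 3 * m (τ 0) := h1
      have h3 : A = 9 * (m (τ 0) + 1).choose 2 := by
        rw [hA]
        have h4 : ∀ i ∈ (Finset.univ : Finset (Fin 9)),
            (m (τ i) + 1).choose 2 = (m (τ 0) + 1).choose 2 := by
          intro i _
          have h5 : m (τ i) = m (τ 0) := h2 i
          rw [h5]
        rw [Finset.sum_congr rfl h4, Finset.sum_const, Finset.card_univ, Fintype.card_fin,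
          smul_eq_mul]
      rw [h3, h1, ne_choose] at hu2
      have hm0 : mass (Sum.elim m (fun _ => 1) : Fin h ⊕ Fin u → ℕ) J ≠ 0 := by
        rw [hmassJ]
        omega
      unfold mass at hm0
      obtain ⟨j, hj, hj0⟩ := Finset.exists_ne_zero_of_sum_ne_zero hm0
      refine core_zero (m := fun i => m (τ i)) hτ hr hsd ⟨j, hj, ?_⟩
      by_contra hcon
      apply hj0
      have h5 : (Sum.elim m (fun _ => 1) : Fin h ⊕ Fin u → ℕ) j = 0 := by omega
      rw [h5]
      rfl
    · refine core_exact (m := fun i => m (τ i)) (N := 72 * M ^ 2 + 94 * M + 29) hM hs1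
        (by omega) hτ hr hsd ?_ hJM ?_
      · exact hB (τ 8) h8
      · rw [hmassJ]
        exact hu2
  obtain ⟨p, x, y, hE⟩ := hE
  rw [hJ, ne_all τ hτS] at hE
  obtain ⟨P₀, hP₀⟩ := exists_configT τ p x y hE
  apply general_nonspecial_of_le P₀
  rw [← hu1]
  exact_mod_cast hP₀

end Pool.Agent.Lib.MP_6b2d39_agTen
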