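import Pool.Agent.Lib.MP_6b2d39_agTen.Block
import Pool.Agent.Lib.MP_6b2d39_agTen.Mono
import Pool.Agent.Lib.MP_6b2d39_agTen.Deg

/-!
Nine heavy points and points of multiplicity at most `M`: exact filling.

PROOF. `q = m 8 / N`, `W = Sp (d + 1) m`, `f b = finrank (quo G b W)`. `f b = N s + f (b + 1)` for `b < q` (`Hal.row`);
`f (q + 2) = 0` (`top_zero`); `x = f q - f (q + 1)`, `y = f (q + 1)`; `y ≤ x ≤ N s` (`mono` for `b = q` and `b = q - 1`; `f` is non
increasing, `finrank_quo_mulF`). If `m 8 + s < (q + 1) N` then `y = 0` (`top_one`); otherwise `a = m 8 - q N ≥ N - s ≥ 2 M + 1` and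
`x + y = f q ≥ a s ≥ 2 M + 1` (`Hal.finrank_quo`, `chi_low1` with `N = 1`, `q = a` for the class `d - q (3 N)`, `m i - q N`), so `x ≥ M + 1`.
`f 0 = N s q + x + y = (d + 2).choose 2 - ∑ (m i + 1).choose 2`. `emp_block` with `H = N s`, `diagram` with `n = q + 2`,
`r = blk (N s) q x y`.
-/

open Polynomial

set_option autoImplicit false

namespace Pool.Agent.Lib.MP_6b2d39_agTen

open Pool.Agent.Lib.MP_6b2d39_ag Pool.Agent.Lib.MP_6b2d39_agWin Pool.Agent.Lib.MP_6b2d39_agNw
  Pool.Agent.Lib.MP_6b2d39_agHal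

variable {M N d s : ℕ} {m : Fin 9 → ℕ} {t : Fin 9 → ℂ} {G : ℂ[X][X]}

private theorem rt_sum {m : Fin 9 → ℕ} {a : ℕ} (h : ∀ i, a ≤ m i) :
    ∑ i, (m i - a) + 9 * a = ∑ i, m i := by
  have h1 : ∑ _i : Fin 9, a = 9 * a := by
    rw [Finset.sum_const, Finset.card_univ, Fintype.card_fin, smul_eq_mul]
  rw [← h1, ← Finset.sum_add_distrib]
  exact Finset.sum_congr rfl fun i _ => Nat.sub_add_cancel (h i)

private theorem rt_zero {f : ℂ[X][X]} {b : ℕ} {W : Submodule ℂ ℂ[X][X]}
    (h : ∀ F : ℂ[X][X], f ^ b * F ∈ W → F = 0) : Module.finrank ℂ (quo f b W) = 0 := by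
  have h1 : quo f b W = ⊥ := by
    rw [Submodule.eq_bot_iff]
    exact fun F hF => h F hF
  rw [h1]
  exact finrank_bot ℂ _

/-- the dimension of the residual system after the full rows -/
private theorem rt_low (h : Hal N t G) (hs : 1 ≤ s) (hm : Antitone m)
    (hr : m 0 + m 1 + m 2 ≤ d) (hd : 3 * d = ∑ i, m i + s) {q : ℕ} (h1 : q * N ≤ m 8) :
    s * (m 8 - q * N) ≤
      Module.finrank ℂ (quo G q (Sp (d + 1) (fun i => gam (t i)) m)) := by
  have h0 : ∀ i, q * N ≤ m i := fun i => h1.trans (hm (Fin.le_last i))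
  have e1 := h.finrank_quo hm hr hs hd h1
  have a0 := h0 0
  have a1 := h0 1
  have a2 := h0 2
  have h4 : q * (3 * N) = 3 * (q * N) := by ring
  have h6 := rt_sum h0
  have e2 := chi_low1 (N := 1) (q := m 8 - q * N) (d := d - q * (3 * N))
    (m := fun i => m i - q * N) (s := s) le_rfl hs
    (fun i j hij => Nat.sub_le_sub_right (hm hij) _) (by omega) (by omega) (by omega)
  rw [one_mul] at e2
  omega

/-- the rows of the system -/
theorem rows_two (h : Hal N t G) (hs : 1 ≤ s) (hN : s + 2 * M + 1 ≤ N) (hm : Antitone m)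
    (hr : m 0 + m 1 + m 2 ≤ d) (hd : 3 * d = ∑ i, m i + s) (h8 : N ≤ m 8) :
    ∃ q x y : ℕ, q * N ≤ m 8 ∧ m 8 < (q + 1) * N ∧ y ≤ x ∧ x ≤ N * s ∧ (y = 0 ∨ M + 1 ≤ x) ∧
      (∀ b < q + 2, Module.finrank ℂ (quo G b (Sp (d + 1) (fun i => gam (t i)) m)) ≤
        blk (N * s) q x y b +
          Module.finrank ℂ (quo G (b + 1) (Sp (d + 1) (fun i => gam (t i)) m))) ∧
      ∑ i, (m i + 1).choose 2 + (N * s * q + x + y) = (d + 2).choose 2 := by
  have hN0 : 0 < N := h.pos
  obtain ⟨f, hf⟩ : ∃ f : ℕ → ℕ, f = fun b =>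
    Module.finrank ℂ (quo G b (Sp (d + 1) (fun i => gam (t i)) m)) := ⟨_, rfl⟩
  obtain ⟨q, hq⟩ : ∃ q, q = m 8 / N := ⟨_, rfl⟩
  have hq1 : 1 ≤ q := by
    rw [hq, Nat.le_div_iff_mul_le hN0, one_mul]
    exact h8
  have hq2 : q * N ≤ m 8 := by
    rw [hq]
    exact Nat.div_mul_le_self _ _
  have hq3 : m 8 < (q + 1) * N := by
    rw [hq]
    exact Nat.lt_mul_of_div_lt (Nat.lt_succ_self _) hN0
  have hrow : ∀ k : ℕ, (k + 1) * N ≤ m 8 → f k = N * s + f (k + 1) := fun k hk => by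
    rw [hf]
    exact h.row hm hr hs hd hk
  have hmono : ∀ b : ℕ, f (b + 1) + f (b + 1) ≤ f b + f (b + 2) := fun b => by
    rw [hf]
    exact mono h (d + 1) b m
  have htop : f (q + 2) = 0 := by
    rw [hf]
    exact rt_zero fun F hF => top_zero h hm hr hd (by omega) hq2 hq3 hF
  have hlow : s * (m 8 - q * N) ≤ f q := by
    rw [hf]
    exact rt_low h hs hm hr hd hq2
  have hy : f (q + 1) + f (q + 1) ≤ f q := by
    have h1 := hmono q
    rw [htop] at h1
    exact h1
  have hx : f q ≤ N * s + f (q + 1) := by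
    obtain ⟨p, rfl⟩ : ∃ p, q = p + 1 := ⟨q - 1, by omega⟩
    have h1 : f (p + 1) + f (p + 1) ≤ f p + f (p + 1 + 1) := hmono p
    have h2 := hrow p hq2
    omega
  have hor : f (q + 1) = 0 ∨ M + 1 ≤ f q - f (q + 1) := by
    rcases Nat.lt_or_ge (m 8 + s) ((q + 1) * N) with h1 | h1
    · left
      rw [hf]
      exact rt_zero fun F hF => top_one h hm hr hd hq2 h1 hF
    · right
      have h2 : (q + 1) * N = q * N + N := by ring
      have h3 : 2 * M + 1 ≤ m 8 - q * N := by omega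
      have h4 := Nat.mul_le_mul hs h3
      rw [one_mul] at h4
      omega
  have key : ∀ k : ℕ, k * N ≤ m 8 → f 0 = N * s * k + f k := by
    intro k
    induction k with
    | zero =>
      intro _
      rw [mul_zero, zero_add]
    | succ k ih =>
      intro hk
      rw [ih ((Nat.mul_le_mul_right N (Nat.le_succ k)).trans hk), hrow k hk]
      ring
  have htot : f 0 + ∑ i, (m i + 1).choose 2 = (d + 2).choose 2 := by
    have h2 := h.finrank_quo hm hr hs hd (k := 0) (by rw [zero_mul]; exact Nat.zero_le _)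
    simp only [zero_mul, tsub_zero] at h2
    rw [hf]
    exact h2
  have hk := key q hq2
  refine ⟨q, f q - f (q + 1), f (q + 1), hq2, hq3, by omega, by omega, hor, ?_, by omega⟩
  intro b hb
  have hg : f b ≤ blk (N * s) q (f q - f (q + 1)) (f (q + 1)) b + f (b + 1) := by
    rcases Nat.lt_trichotomy b q with h1 | h1 | h1
    · have h2 : (b + 1) * N ≤ m 8 := (Nat.mul_le_mul_right N h1).trans hq2
      rw [blk, if_pos h1, ← hrow b h2]
    · rw [blk, if_neg (by omega), if_pos h1, h1]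
      omega
    · have h2 : b = q + 1 := by omega
      rw [blk, if_neg (by omega), if_neg (by omega), h2]
      omega
  rw [hf] at hg
  rw [hf]
  exact hg

end Pool.Agent.Lib.MP_6b2d39_agTen
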